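import Pool.Agent.Lib.MP_b1a3a4_al.MVS.HO.Iface

/-!
# Modules CURV1, CURV2: paths and loops in curved regions
-/

set_option linter.all false

namespace Pool.Agent.Lib.MP_b1a3a4_al.MVS.HO.H92

open Filter Topology

lemma comp_fin {X : Type} {good : ℝ → X → Prop} {c₁ : ℝ}
    (h : ∀ lam : ℝ, |lam| ≤ c₁ → ∃ x, ∀ᶠ lam' in 𝓝 lam, good lam' x) :
    ∃ P : Set X, P.Finite ∧ ∀ lam : ℝ, |lam| ≤ c₁ → ∃ x ∈ P, good lam x := by
  have hK : IsCompact (Set.Icc (-c₁) c₁) := isCompact_Icc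
  have key : ∃ P : Set X, P.Finite ∧ ∀ lam ∈ Set.Icc (-c₁) c₁, ∃ x ∈ P, good lam x := by
    refine hK.induction_on (p := fun s => ∃ P : Set X, P.Finite ∧ ∀ lam ∈ s, ∃ x ∈ P, good lam x)
      ?_ ?_ ?_ ?_
    · exact ⟨∅, Set.finite_empty, fun lam hl => absurd hl (Set.notMem_empty _)⟩
    · rintro s t hst ⟨P, hP, hh⟩
      exact ⟨P, hP, fun lam hl => hh lam (hst hl)⟩
    · rintro s t ⟨P, hP, hh⟩ ⟨P', hP', hh'⟩
      refine ⟨P ∪ P', hP.union hP', fun lam hl => ?_⟩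
      rcases hl with hl | hl
      · obtain ⟨x, hx, hg⟩ := hh lam hl
        exact ⟨x, Or.inl hx, hg⟩
      · obtain ⟨x, hx, hg⟩ := hh' lam hl
        exact ⟨x, Or.inr hx, hg⟩
    · intro lam hl
      obtain ⟨x, hx⟩ := h lam (abs_le.2 hl)
      exact ⟨{lam' | good lam' x}, mem_nhdsWithin_of_mem_nhds hx, {x}, Set.finite_singleton x,
        fun lam' hl' => ⟨x, rfl, hl'⟩⟩
  obtain ⟨P, hP, hh⟩ := key
  exact ⟨P, hP, fun lam hl => hh lam (abs_le.1 hl)⟩

lemma val_lin {G : Type} [Group G] (χ ψ : Chr G) (lam : ℝ) (g : G) :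
    val (χ + lam • ψ) g = val χ g + lam * val ψ g := by
  simp [val]

/-- slope of the supporting linear function at `v` -/
noncomputable def slope {G : Type} [Group G] (ψ : Chr G) (c₁ M : ℝ) (v : G) : ℝ :=
  -(c₁ * (val ψ v / Real.sqrt (val ψ v ^ 2 + M ^ 2)))

lemma slope_le {G : Type} [Group G] (ψ : Chr G) {c₁ M : ℝ} (hc : 0 < c₁) (hM : 0 < M) (v : G) :
    |slope ψ c₁ M v| ≤ c₁ := by
  unfold slope
  have hA : 0 < Real.sqrt (val ψ v ^ 2 + M ^ 2) := Real.sqrt_pos.2 (by positivity)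
  rw [abs_neg, abs_mul, abs_of_pos hc, abs_div, abs_of_pos hA]
  have h1 : |val ψ v| ≤ Real.sqrt (val ψ v ^ 2 + M ^ 2) := by
    apply Real.le_sqrt_of_sq_le
    rw [sq_abs]
    nlinarith [sq_nonneg M]
  have h2 : |val ψ v| / Real.sqrt (val ψ v ^ 2 + M ^ 2) ≤ 1 := by
    rw [div_le_one hA]; exact h1
  nlinarith

lemma curv_upper {G : Type} [Group G] (χ ψ : Chr G) {c₁ M : ℝ} (hc : 0 < c₁) (hM : 0 < M)
    (v x : G) :
    curv χ ψ c₁ M (v * x) ≤ curv χ ψ c₁ M v + val (χ + slope ψ c₁ M v • ψ) x := by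
  have h := sqrt_lower hM (val ψ v) (val ψ x)
  rw [val_lin]
  unfold curv slope
  rw [val_mul, val_mul]
  nlinarith

lemma curv_lower {G : Type} [Group G] (χ ψ : Chr G) {c₁ M : ℝ} (hc : 0 < c₁) (hM : 0 < M)
    (v x : G) :
    curv χ ψ c₁ M v + val (χ + slope ψ c₁ M v • ψ) x - c₁ * (val ψ x ^ 2 / (2 * M))
      ≤ curv χ ψ c₁ M (v * x) := by
  have h := sqrt_upper hM (val ψ v) (val ψ x)
  rw [val_lin]
  unfold curv slope
  rw [val_mul, val_mul]
  nlinarith

lemma small {K c₁ M t : ℝ} (hc : 0 < c₁) (hM : 0 < M) (hK : c₁ * K ^ 2 ≤ M) (ht : |t| ≤ K) :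
    c₁ * (t ^ 2 / (2 * M)) ≤ 1 / 2 := by
  have h1 : t ^ 2 ≤ K ^ 2 := by
    rw [← sq_abs t]
    exact pow_le_pow_left₀ (abs_nonneg t) ht 2
  rw [← mul_div_assoc, div_le_iff₀ (by positivity)]
  nlinarith

/-- the vertices of a path -/
def vert {G : Type} [Group G] (u : G) (w : List G) : Set G := {x | ∃ q, q <+: w ∧ x = u * q.prod}

lemma vert_finite {G : Type} [Group G] (u : G) (w : List G) : (vert u w).Finite := by
  have : vert u w ⊆ (fun q : List G => u * q.prod) '' {q | q ∈ w.inits} := by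
    rintro x ⟨q, hq, rfl⟩
    exact ⟨q, (List.mem_inits q w).2 hq, rfl⟩
  exact (Set.Finite.image _ (List.finite_toSet _)).subset this

lemma eventually_le {G : Type} [Group G] (χ ψ : Chr G) (lam a b : ℝ) (x y : G)
    (h : val (χ + lam • ψ) x - a ≤ val (χ + lam • ψ) y) (hb : a < b) :
    ∀ᶠ lam' in 𝓝 lam, val (χ + lam' • ψ) x - b ≤ val (χ + lam' • ψ) y := by
  have h1 : ∀ᶠ lam' in 𝓝 lam, val χ x + lam' * val ψ x - b < val χ y + lam' * val ψ y := by
    have c1 : Continuous fun lam' : ℝ => val χ x + lam' * val ψ x - b := by fun_prop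
    have c2 : Continuous fun lam' : ℝ => val χ y + lam' * val ψ y := by fun_prop
    refine c1.continuousAt.eventually_lt c2.continuousAt ?_
    rw [val_lin, val_lin] at h
    linarith
  filter_upwards [h1] with lam' h2
  rw [val_lin, val_lin]
  exact h2.le

theorem curv1 : Curv1Statement := by
  intro G _ E hE χ ψ c₁ D hc hD hHS B hB
  classical
  -- for every pair, finitely many words
  let good : G × G → ℝ → List G → Prop := fun uu lam p =>
    uu.1 * p.prod = uu.2 ∧ (∀ x ∈ p, x ∈ E) ∧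
      ∀ x ∈ vert uu.1 p, val (χ + lam • ψ) uu.1 - (D + 1 / 2) ≤ val (χ + lam • ψ) x ∨
        val (χ + lam • ψ) uu.2 - (D + 1 / 2) ≤ val (χ + lam • ψ) x
  have hgood : ∀ uu : G × G, ∃ P : Set (List G), P.Finite ∧
      ∀ lam : ℝ, |lam| ≤ c₁ → ∃ p ∈ P, good uu lam p := by
    rintro ⟨u, u'⟩
    apply comp_fin
    intro lam hl
    set μ := χ + lam • ψ with hμ
    have hu : min (val μ u) (val μ u') - D + D ≤ val μ u := by
      have := min_le_left (val μ u) (val μ u'); linarith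
    have hu' : min (val μ u) (val μ u') - D + D ≤ val μ u' := by
      have := min_le_right (val μ u) (val μ u'); linarith
    have hcon := (hHS lam hl).1 (min (val μ u) (val μ u') - D) u u' hu hu'
    have hmem : u ∈ up (val μ) (min (val μ u) (val μ u') - D) := by
      rw [mem_up]; linarith
    obtain ⟨w, hw, hw'⟩ := (conn_iff hmem).1 hcon
    obtain ⟨hw1, hw2⟩ := inPath_iff.1 hw
    refine ⟨w, ?_⟩
    have hfin := vert_finite u w
    have hev : ∀ᶠ lam' in 𝓝 lam, ∀ x ∈ vert u w,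
        val (χ + lam' • ψ) u - (D + 1 / 2) ≤ val (χ + lam' • ψ) x ∨
        val (χ + lam' • ψ) u' - (D + 1 / 2) ≤ val (χ + lam' • ψ) x := by
      refine (Filter.eventually_all_finite hfin).2 fun x hx => ?_
      obtain ⟨q, hq, rfl⟩ := hx
      have h1 := hw2 q hq
      rw [mem_up] at h1
      rcases min_cases (val μ u) (val μ u') with ⟨h2, -⟩ | ⟨h2, -⟩
      · rw [h2] at h1
        filter_upwards [eventually_le χ ψ lam D (D + 1 / 2) u (u * q.prod) h1 (by linarith)]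
          with lam' h3
        exact Or.inl h3
      · rw [h2] at h1
        filter_upwards [eventually_le χ ψ lam D (D + 1 / 2) u' (u * q.prod) h1 (by linarith)]
          with lam' h3
        exact Or.inr h3
    filter_upwards [hev] with lam' h3
    exact ⟨hw', hw1, h3⟩
  choose P hPf hP using hgood
  let PP : Set (List G) := ⋃ uu ∈ B ×ˢ B, P uu
  have hPP : PP.Finite := (hB.prod hB).biUnion fun uu _ => hPf uu
  -- all vertices
  let V : Set G := ⋃ u ∈ B, ⋃ p ∈ PP, vert u p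
  have hV : V.Finite := hB.biUnion fun u _ => hPP.biUnion fun p _ => vert_finite u p
  obtain ⟨K, hK⟩ := (hV.image fun x => |val ψ x|).bddAbove
  refine ⟨PP, c₁ * K ^ 2 + 1, hPP, by positivity, fun M hM v u hu u' hu' => ?_⟩
  have hM0 : 0 < M := lt_of_lt_of_le (by positivity) hM
  obtain ⟨p, hp, hp1, hp2, hp3⟩ := hP (u, u') (slope ψ c₁ M v) (slope_le ψ hc hM0 v)
  have hpP : p ∈ PP := Set.mem_biUnion (show (u, u') ∈ B ×ˢ B from ⟨hu, hu'⟩) hp
  refine ⟨p, hpP, hp1, ?_⟩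
  rw [inPath_iff]
  refine ⟨hp2, fun q hq => ?_⟩
  rw [mem_up, mul_assoc]
  have hx : u * q.prod ∈ vert u p := ⟨q, hq, rfl⟩
  have hxV : u * q.prod ∈ V :=
    Set.mem_biUnion hu (Set.mem_biUnion hpP hx)
  have hs : c₁ * (val ψ (u * q.prod) ^ 2 / (2 * M)) ≤ 1 / 2 :=
    small hc hM0 (by linarith) (hK ⟨_, hxV, rfl⟩)
  have h1 := curv_lower χ ψ hc hM0 v (u * q.prod)
  have h2 := curv_upper χ ψ hc hM0 v u
  have h3 := curv_upper χ ψ hc hM0 v u'
  rcases hp3 _ hx with h | h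
  · have := min_le_left (curv χ ψ c₁ M (v * u)) (curv χ ψ c₁ M (v * u'))
    simp only at h
    linarith
  · have := min_le_right (curv χ ψ c₁ M (v * u)) (curv χ ψ c₁ M (v * u'))
    simp only at h
    linarith

theorem curv2 (hC : CarrStatement) : Curv2Statement := by
  intro G _ E hE χ ψ c₁ D hc hD hHS L hL hLE
  classical
  let good : G × List G × List G → ℝ → Set G → Prop := fun ℓ lam F =>
    F.Finite ∧ SameHol E F ℓ.1 ℓ.2.1 ℓ.2.2 ∧
      ∀ f ∈ F, ∃ x ∈ vert ℓ.1 ℓ.2.1 ∪ vert ℓ.1 ℓ.2.2,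
        val (χ + lam • ψ) x - (D + 1 / 2) ≤ val (χ + lam • ψ) f
  have hgood : ∀ ℓ : G × List G × List G, ∃ P : Set (Set G), P.Finite ∧
      (ℓ ∈ L → ∀ lam : ℝ, |lam| ≤ c₁ → ∃ F ∈ P, good ℓ lam F) := by
    intro ℓ
    by_cases hℓ : ℓ ∈ L
    swap
    · exact ⟨∅, Set.finite_empty, fun h => absurd h hℓ⟩
    obtain ⟨u, w, w'⟩ := ℓ
    obtain ⟨hw, hw', hprod⟩ := hLE _ hℓ
    have : ∃ P : Set (Set G), P.Finite ∧
        ∀ lam : ℝ, |lam| ≤ c₁ → ∃ F ∈ P, good (u, w, w') lam F := by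
      apply comp_fin
      intro lam hl
      set μ := χ + lam • ψ with hμ
      have hfin : (vert u w ∪ vert u w').Finite := (vert_finite u w).union (vert_finite u w')
      have hne : (vert u w ∪ vert u w').Nonempty :=
        ⟨u, Or.inl ⟨[], List.nil_prefix, by simp⟩⟩
      obtain ⟨x₀, hx₀, hmin⟩ := Set.exists_min_image _ (val μ) hfin hne
      have hin : InPath E (up (val μ) (val μ x₀)) u w := by
        rw [inPath_iff]
        exact ⟨hw, fun q hq => hmin _ (Or.inl ⟨q, hq, rfl⟩)⟩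
      have hin' : InPath E (up (val μ) (val μ x₀)) u w' := by
        rw [inPath_iff]
        exact ⟨hw', fun q hq => hmin _ (Or.inr ⟨q, hq, rfl⟩)⟩
      have hsame : SameHol E (up (val μ) (val μ x₀ - D)) u w w' := by
        refine sameHol_of_cob (Z₁ := up (val μ) (val μ x₀)) ?_ hin hin' hprod
        intro H _ c hcc
        have := (hHS lam hl).2 (val μ x₀ - D) H c hcc
        rwa [sub_add_cancel] at this
      obtain ⟨F, hF, hFs, hFh⟩ := hC G E _ u w w' hsame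
      refine ⟨F, ?_⟩
      have hev : ∀ᶠ lam' in 𝓝 lam, ∀ f ∈ F,
          val (χ + lam' • ψ) x₀ - (D + 1 / 2) ≤ val (χ + lam' • ψ) f := by
        refine (Filter.eventually_all_finite hF).2 fun f hf => ?_
        exact eventually_le χ ψ lam D (D + 1 / 2) x₀ f (hFs hf) (by linarith)
      filter_upwards [hev] with lam' h3
      exact ⟨hF, hFh, fun f hf => ⟨x₀, hx₀, h3 f hf⟩⟩
    obtain ⟨P, hP, hPP⟩ := this
    exact ⟨P, hP, fun _ => hPP⟩
  choose P hPf hP using hgood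
  let PP : Set (Set G) := (⋃ ℓ ∈ L, P ℓ) ∩ {F | F.Finite}
  have hPP : PP.Finite := (hL.biUnion fun ℓ _ => hPf ℓ).subset Set.inter_subset_left
  let V : Set G := ⋃₀ PP
  have hV : V.Finite := hPP.sUnion fun F hF => hF.2
  obtain ⟨K, hK⟩ := (hV.image fun x => |val ψ x|).bddAbove
  refine ⟨c₁ * K ^ 2 + 1, by positivity, fun M hM v ℓ hℓ a h1 h2 => ?_⟩
  have hM0 : 0 < M := lt_of_lt_of_le (by positivity) hM
  obtain ⟨F, hFP, hF, hsame, hF3⟩ := hP ℓ hℓ (slope ψ c₁ M v) (slope_le ψ hc hM0 v)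
  have hFPP : F ∈ PP := ⟨Set.mem_biUnion hℓ hFP, hF⟩
  refine hsame.translate v fun f hf => ?_
  rw [mem_up]
  obtain ⟨x, hx, hxf⟩ := hF3 f hf
  have hfV : f ∈ V := ⟨F, hFPP, hf⟩
  have hs : c₁ * (val ψ f ^ 2 / (2 * M)) ≤ 1 / 2 :=
    small hc hM0 (by linarith) (hK ⟨_, hfV, rfl⟩)
  have h3 := curv_lower χ ψ hc hM0 v f
  have h4 := curv_upper χ ψ hc hM0 v x
  have h5 : a ≤ curv χ ψ c₁ M (v * x) := by
    rcases hx with ⟨q, hq, rfl⟩ | ⟨q, hq, rfl⟩
    · rw [← mul_assoc]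
      exact (inPath_iff.1 h1).2 q hq
    · rw [← mul_assoc]
      exact (inPath_iff.1 h2).2 q hq
  linarith

end Pool.Agent.Lib.MP_b1a3a4_al.MVS.HO.H92
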